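import Pool.Agent.Y269.CT.Rig
import Pool.Agent.H536R3.Final

set_option autoImplicit false
set_option linter.unusedVariables false

/-! From real constants to natural constants. -/

namespace Pool.Agent.Y269.CT

open Pool.Agent.H536R3

universe u v w

theorem nat_const {K C : ℝ} (hK : 1 ≤ K) (hC : 0 ≤ C) : ∃ A : ℕ, K + C + K * C ≤ A :=
  ⟨⌈K + C + K * C⌉₊, Nat.le_ceil _⟩

theorem lo_nat {K C : ℝ} (hK : 1 ≤ K) (hC : 0 ≤ C) {A : ℕ} (hA : K + C + K * C ≤ A) {a b : ℕ}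
    (h : K⁻¹ * (a : ℝ) - C ≤ b) : a ≤ A * b + A := by
  have hK0 : 0 < K := by linarith
  rw [sub_le_iff_le_add, inv_mul_le_iff₀ hK0] at h
  have c2 : (0 : ℝ) ≤ (b : ℝ) := Nat.cast_nonneg _
  have hKC : 0 ≤ K * C := mul_nonneg (by linarith) hC
  have e3 : K * (b : ℝ) ≤ A * (b : ℝ) := mul_le_mul_of_nonneg_right (by linarith) c2
  have e2 : (a : ℝ) ≤ A * (b : ℝ) + A := by nlinarith
  exact_mod_cast e2

theorem up_nat {K C : ℝ} (hK : 1 ≤ K) (hC : 0 ≤ C) {A : ℕ} (hA : K + C + K * C ≤ A) {a b : ℕ}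
    (h : (a : ℝ) ≤ K * b + C) : a ≤ A * b + A := by
  have c2 : (0 : ℝ) ≤ (b : ℝ) := Nat.cast_nonneg _
  have hKC : 0 ≤ K * C := mul_nonneg (by linarith) hC
  have e3 : K * (b : ℝ) ≤ A * (b : ℝ) := mul_le_mul_of_nonneg_right (by linarith) c2
  have e2 : (a : ℝ) ≤ A * (b : ℝ) + A := by linarith
  exact_mod_cast e2

theorem c_nat {K C : ℝ} (hK : 1 ≤ K) (hC : 0 ≤ C) {A : ℕ} (hA : K + C + K * C ≤ A) {a : ℕ}
    (h : (a : ℝ) ≤ C) : a ≤ A := by
  have hKC : 0 ≤ K * C := mul_nonneg (by linarith) hC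
  have e2 : (a : ℝ) ≤ A := by linarith
  exact_mod_cast e2

/-- a quasi-isometry between two of the graphs gives a pair of quasi-inverse maps -/
theorem exists_QQ {s t : ℤ → ℕ} {K C : ℝ} (hK : 1 ≤ K) (hC : 0 ≤ C)
    (F : KK s × ℤ → KK t × ℤ)
    (h1 : ∀ x x', K⁻¹ * (dX s x x' : ℝ) - C ≤ (dX t (F x) (F x') : ℝ) ∧
      (dX t (F x) (F x') : ℝ) ≤ K * (dX s x x' : ℝ) + C)
    (h2 : ∀ y, ∃ x, (dX t y (F x) : ℝ) ≤ C) :
    ∃ (G : KK t × ℤ → KK s × ℤ) (K' C' : ℕ), QQ s t F G K' C' := by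
  obtain ⟨A, hA⟩ := nat_const hK hC
  have up : ∀ x x', dX t (F x) (F x') ≤ A * dX s x x' + A := fun x x' =>
    up_nat hK hC hA (h1 x x').2
  have lo : ∀ x x', dX s x x' ≤ A * dX t (F x) (F x') + A := fun x x' =>
    lo_nat hK hC hA (h1 x x').1
  have h3 : ∀ y, ∃ x, dX t y (F x) ≤ A := fun y => by
    obtain ⟨x, hx⟩ := h2 y
    exact ⟨x, c_nat hK hC hA hx⟩
  choose G hG using h3
  have hFG : ∀ a b, dX t (F (G a)) (F (G b)) ≤ dX t a b + 2 * A := by
    intro a b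
    have e1 := dX_tri t (F (G a)) a (F (G b))
    have e2 := dX_tri t a b (F (G b))
    have e3 := hG a
    have e4 := hG b
    rw [dX_comm] at e3
    omega
  have hFG' : ∀ a b, dX t a b ≤ dX t (F (G a)) (F (G b)) + 2 * A := by
    intro a b
    have e1 := dX_tri t a (F (G a)) b
    have e2 := dX_tri t (F (G a)) (F (G b)) b
    have e3 := hG a
    have e4 := hG b
    rw [dX_comm] at e4
    omega
  refine ⟨G, A, 2 * (A * A) + 3 * A, ?_, ?_, ?_, ?_, ?_, ?_⟩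
  · intro x y
    have := up x y
    omega
  · intro x y
    have := lo x y
    omega
  · intro x y
    have e1 := lo (G x) (G y)
    have e2 : A * dX t (F (G x)) (F (G y)) ≤ A * (dX t x y + 2 * A) :=
      Nat.mul_le_mul_left _ (hFG x y)
    have e3 : A * (dX t x y + 2 * A) = A * dX t x y + 2 * (A * A) := by ring
    omega
  · intro x y
    have e1 := hFG' x y
    have e2 := up (G x) (G y)
    omega
  · intro x
    have e1 := lo (G (F x)) x
    have e2 := hG (F x)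
    rw [dX_comm] at e2
    have e3 : A * dX t (F (G (F x))) (F x) ≤ A * A := Nat.mul_le_mul_left _ e2
    omega
  · intro y
    have e2 := hG y
    rw [dX_comm] at e2
    omega

/-- a quasi-action with real constants gives one with natural constants -/
theorem exists_QA' {s : ℤ → ℕ} {H : Type w} [Group H] (f : H → KK s × ℤ → KK s × ℤ)
    {K C : ℝ} (hK : 1 ≤ K) (hC : 0 ≤ C)
    (h1 : ∀ h x x', K⁻¹ * (dX s x x' : ℝ) - C ≤ (dX s (f h x) (f h x') : ℝ) ∧
      (dX s (f h x) (f h x') : ℝ) ≤ K * (dX s x x' : ℝ) + C)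
    (h2 : ∀ g h x, (dX s (f g (f h x)) (f (g * h) x) : ℝ) ≤ C)
    (h3 : ∀ x y, ∃ h, (dX s (f h x) y : ℝ) ≤ C) :
    ∃ K' C' : ℕ, QA s f K' C' := by
  obtain ⟨A, hA⟩ := nat_const hK hC
  have up : ∀ h x x', dX s (f h x) (f h x') ≤ A * dX s x x' + A := fun h x x' =>
    up_nat hK hC hA (h1 h x x').2
  have lo : ∀ h x x', dX s x x' ≤ A * dX s (f h x) (f h x') + A := fun h x x' =>
    lo_nat hK hC hA (h1 h x x').1
  have mu : ∀ g h x, dX s (f g (f h x)) (f (g * h) x) ≤ A := fun g h x =>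
    c_nat hK hC hA (h2 g h x)
  refine ⟨A, A * A + A, ?_, ?_, ?_, ?_, ?_⟩
  · intro h x y
    have := up h x y
    omega
  · intro h x y
    have := lo h x y
    omega
  · intro h h' x
    have := mu h h' x
    omega
  · intro x
    have e1 := lo 1 (f 1 x) x
    have e2 := mu 1 1 x
    rw [one_mul] at e2
    have e3 : A * dX s (f 1 (f 1 x)) (f 1 x) ≤ A * A := Nat.mul_le_mul_left _ e2
    omega
  · intro x y
    obtain ⟨h, hh⟩ := h3 x y
    refine ⟨h, ?_⟩
    have := c_nat hK hC hA hh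
    omega

end Pool.Agent.Y269.CT
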