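import Pool.Agent.H536R3.Final

set_option autoImplicit false
set_option linter.unusedVariables false

/-! Definitions for the problem on coarsely transitive graphs, for distance functions. -/

namespace Pool.Agent.Y269.CT

universe u v w

/-- the path metric of a graph, as a real-valued function on the pairs of vertices -/
noncomputable def pd {V : Type u} (X : SimpleGraph V) (x y : V) : ℝ := (X.dist x y : ℝ)

/-- `f` is a `(K, C)`-quasi-isometry from `(V, d)` to `(W, d')` -/
def IsQI {V : Type u} {W : Type v} (d : V → V → ℝ) (d' : W → W → ℝ) (K C : ℝ)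
    (f : V → W) : Prop :=
  (∀ x x' : V, K⁻¹ * d x x' - C ≤ d' (f x) (f x') ∧ d' (f x) (f x') ≤ K * d x x' + C) ∧
  ∀ y : W, ∃ x : V, d' y (f x) ≤ C

/-- `(V, d)` and `(W, d')` are quasi-isometric -/
def QuasiIsometric {V : Type u} {W : Type v} (d : V → V → ℝ) (d' : W → W → ℝ) : Prop :=
  ∃ K C : ℝ, 1 ≤ K ∧ 0 ≤ C ∧ ∃ f : V → W, IsQI d d' K C f

/-- `X` is coarsely transitive, with constants uniform over all pairs of vertices -/
def CoarselyTransitive {V : Type u} (X : SimpleGraph V) : Prop :=
  ∃ K C : ℝ, 1 ≤ K ∧ 0 ≤ C ∧ ∀ x y : V, ∃ f : V → V, IsQI (pd X) (pd X) K C f ∧ f x = y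

/-- `X` is vertex-transitive -/
def VertexTransitive {V : Type u} (X : SimpleGraph V) : Prop :=
  ∀ x y : V, ∃ e : X ≃g X, e x = y

/-- `f` is a quasi-action of the group `H` on the graph `X`, with constants `K` and `C`, which is
cobounded: every orbit comes within distance `C` of every vertex -/
def CoboundedQuasiAction {V : Type u} (X : SimpleGraph V) (H : Type w) [Group H] (K C : ℝ)
    (f : H → V → V) : Prop :=
  (∀ h : H, IsQI (pd X) (pd X) K C (f h)) ∧
  (∀ (g h : H) (x : V), pd X (f g (f h x)) (f (g * h) x) ≤ C) ∧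
  ∀ x y : V, ∃ h : H, pd X (f h x) y ≤ C

end Pool.Agent.Y269.CT
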