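import Pool.Agent.H536R3.Rtwo
import Pool.Agent.H536R3.Flux

set_option autoImplicit false
set_option linter.unusedSectionVars false
set_option linter.unusedVariables false

/-! Quasi-isometries between the graphs of two patterns induce bijections of levels which
preserve the patterns. -/

namespace Pool.Agent.Y269.CT

open Pool.Agent.H536R3 Monoid Monoid.PushoutI

/-- a pair of quasi-inverse quasi-isometries -/
structure QQ (s t : ℤ → ℕ) (F : KK s × ℤ → KK t × ℤ) (G : KK t × ℤ → KK s × ℤ) (K C : ℕ) :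
    Prop where
  upF : ∀ x y, dX t (F x) (F y) ≤ K * dX s x y + C
  loF : ∀ x y, dX s x y ≤ K * dX t (F x) (F y) + C
  upG : ∀ x y, dX s (G x) (G y) ≤ K * dX t x y + C
  loG : ∀ x y, dX t x y ≤ K * dX s (G x) (G y) + C
  GF : ∀ x, dX s (G (F x)) x ≤ C
  FG : ∀ y, dX t (F (G y)) y ≤ C

theorem QQ.symm {s t : ℤ → ℕ} {F : KK s × ℤ → KK t × ℤ} {G : KK t × ℤ → KK s × ℤ} {K C : ℕ}
    (q : QQ s t F G K C) : QQ t s G F K C :=
  ⟨q.upG, q.loG, q.upF, q.loF, q.FG, q.GF⟩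

theorem QQ.id (s : ℤ → ℕ) (K C : ℕ) : QQ s s (fun x => x) (fun x => x) (K + 1) C := by
  have h : ∀ a : ℕ, a ≤ (K + 1) * a + C := by
    intro a
    nlinarith [Nat.zero_le (K * a)]
  exact ⟨fun _ _ => h _, fun _ _ => h _, fun _ _ => h _, fun _ _ => h _,
    fun x => by simp [dX_self], fun x => by simp [dX_self]⟩

/-- `F` maps `P` close to `P'` -/
def MPc {s t : ℤ → ℕ} (F : KK s × ℤ → KK t × ℤ) (M : ℕ) (P : Set (KK s × ℤ))
    (P' : Set (KK t × ℤ)) : Prop :=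
  ∀ x ∈ P, F x ∈ NB t M P'

/-- `F` maps `P` close to `P'` -/
def mpc {s t : ℤ → ℕ} (F : KK s × ℤ → KK t × ℤ) (P : Set (KK s × ℤ))
    (P' : Set (KK t × ℤ)) : Prop :=
  ∃ M, MPc F M P P'

section

variable {s t : ℤ → ℕ} {F : KK s × ℤ → KK t × ℤ} {G : KK t × ℤ → KK s × ℤ} {K C : ℕ}

theorem MPc_uniq (hs : ∀ n, s n ≤ 1) (ht : ∀ n, t n ≤ 1) (q : QQ s t F G K C) {M M' : ℕ}
    {k : KK s} {k1 k2 : KK t}
    {n n1 n2 : ℤ} (h1 : MPc F M (OB s k n) (OB t k1 n1)) (h2 : MPc F M' (OB s k n) (OB t k2 n2)) :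
    OB t k1 n1 = OB t k2 n2 := by
  by_contra hne
  obtain ⟨C', hC'⟩ := growth_distinct ht hne (max M M')
  refine no_poly ht (hs n) (K := K) (C := C) (fun u => F (k * io s n u, n)) ?_ ?_ hC' ?_
  · intro u v
    have := q.upF (k * io s n u, n) (k * io s n v, n)
    rwa [dX_piece] at this
  · intro u v
    have := q.loF (k * io s n u, n) (k * io s n v, n)
    rwa [dX_piece] at this
  · intro u
    have e1 := h1 (k * io s n u, n) ⟨u, rfl⟩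
    have e2 := h2 (k * io s n u, n) ⟨u, rfl⟩
    exact ⟨NB_mono t (le_max_left _ _) subset_rfl e1, NB_mono t (le_max_right _ _) subset_rfl e2⟩

theorem MPc_exists (hs : ∀ n, s n ≤ 1) (ht : ∀ n, t n ≤ 1) (q : QQ s t F G K C) :
    ∃ M0, ∀ k n, ∃ k' n', MPc F M0 (OB s k n) (OB t k' n') := by
  have key : ∀ d : ℕ, ∃ M : ℕ, d ≤ 1 → ∀ g : Pc d → KK t × ℤ,
      (∀ u v, dX t (g u) (g v) ≤ K * nm (u⁻¹ * v) + C) →
      (∀ u v, nm (u⁻¹ * v) ≤ K * dX t (g u) (g v) + C) →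
      ∃ k n, ∀ u, ∃ y ∈ OB t k n, dX t (g u) y ≤ M := by
    intro d
    by_cases hd : d ≤ 1
    · obtain ⟨M, hM⟩ := Rone (s := t) ht d hd K C
      exact ⟨M, fun _ => hM⟩
    · exact ⟨0, fun h => absurd h hd⟩
  choose M hM using key
  refine ⟨max (M 0) (M 1), fun k n => ?_⟩
  have hle : M (s n) ≤ max (M 0) (M 1) := by
    have h0 := hs n
    have h1 : s n = 0 ∨ s n = 1 := by omega
    rcases h1 with h1 | h1
    · rw [h1]; exact le_max_left _ _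
    · rw [h1]; exact le_max_right _ _
  obtain ⟨k', n', h1⟩ := hM (s n) (hs n) (fun u => F (k * io s n u, n)) (by
    intro u v
    have := q.upF (k * io s n u, n) (k * io s n v, n)
    rwa [dX_piece] at this) (by
    intro u v
    have := q.loF (k * io s n u, n) (k * io s n v, n)
    rwa [dX_piece] at this)
  refine ⟨k', n', ?_⟩
  rintro x ⟨u, rfl⟩
  obtain ⟨y, hy, hyd⟩ := h1 u
  exact ⟨y, hy, hyd.trans hle⟩

theorem mpc_uniq (hs : ∀ n, s n ≤ 1) (ht : ∀ n, t n ≤ 1) (q : QQ s t F G K C)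
    {k : KK s} {k1 k2 : KK t}
    {n n1 n2 : ℤ} (h1 : mpc F (OB s k n) (OB t k1 n1)) (h2 : mpc F (OB s k n) (OB t k2 n2)) :
    OB t k1 n1 = OB t k2 n2 := by
  obtain ⟨M, h1⟩ := h1
  obtain ⟨M', h2⟩ := h2
  exact MPc_uniq hs ht q h1 h2

theorem mpc_exists (hs : ∀ n, s n ≤ 1) (ht : ∀ n, t n ≤ 1) (q : QQ s t F G K C) (k : KK s)
    (n : ℤ) : ∃ k' n', mpc F (OB s k n) (OB t k' n') := by
  obtain ⟨M0, h0⟩ := MPc_exists hs ht q
  obtain ⟨k', n', h1⟩ := h0 k n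
  exact ⟨k', n', _, h1⟩

/-- back and forth -/
theorem mpc_back (q : QQ s t F G K C) {P P'' : Set (KK s × ℤ)} {P' : Set (KK t × ℤ)}
    (h1 : mpc F P P') (h2 : mpc G P' P'') : mpc (fun x : KK s × ℤ => x) P P'' := by
  obtain ⟨M, h1⟩ := h1
  obtain ⟨M', h2⟩ := h2
  refine ⟨C + (K * M + C) + M', ?_⟩
  intro x hx
  obtain ⟨y, hy, hxy⟩ := h1 x hx
  obtain ⟨z, hz, hyz⟩ := h2 y hy
  refine ⟨z, hz, ?_⟩
  have e1 := q.GF x
  rw [dX_comm] at e1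
  have e2 := q.upG (F x) y
  have e3 := dX_tri s x (G (F x)) z
  have e4 := dX_tri s (G (F x)) (G y) z
  have e5 : K * dX t (F x) y ≤ K * M := Nat.mul_le_mul_left _ hxy
  simp only
  omega

theorem mpc_id (P : Set (KK s × ℤ)) : mpc (fun x : KK s × ℤ => x) P P :=
  ⟨0, fun x hx => ⟨x, hx, by rw [dX_self]⟩⟩

theorem id_uniq (hs : ∀ n, s n ≤ 1) {k k1 : KK s} {n n1 : ℤ}
    (h1 : mpc (fun x : KK s × ℤ => x) (OB s k n) (OB s k1 n1)) : OB s k1 n1 = OB s k n :=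
  mpc_uniq hs hs (QQ.id s 0 0) h1 (mpc_id _)

theorem mpc_inv (hs : ∀ n, s n ≤ 1) (ht : ∀ n, t n ≤ 1) (q : QQ s t F G K C)
    {k : KK s} {k' : KK t} {n n' : ℤ}
    (h1 : mpc F (OB s k n) (OB t k' n')) : mpc G (OB t k' n') (OB s k n) := by
  obtain ⟨k'', n'', h2⟩ := mpc_exists ht hs q.symm k' n'
  have h4 := id_uniq hs (mpc_back q h1 h2)
  rwa [h4] at h2

theorem mpc_inj (hs : ∀ n, s n ≤ 1) (ht : ∀ n, t n ≤ 1) (q : QQ s t F G K C)
    {k1 k2 : KK s} {n1 n2 : ℤ} {k : KK t} {n : ℤ}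
    (h1 : mpc F (OB s k1 n1) (OB t k n)) (h2 : mpc F (OB s k2 n2) (OB t k n)) :
    OB s k1 n1 = OB s k2 n2 :=
  mpc_uniq ht hs q.symm (mpc_inv hs ht q h1) (mpc_inv hs ht q h2)

theorem tr_growthc (hs : ∀ n, s n ≤ 1) (q : QQ s t F G K C) {P Q : Set (KK s × ℤ)}
    {P' Q' : Set (KK t × ℤ)}
    {M M' R : ℕ} (h1 : MPc F M P P') (h2 : MPc F M' Q Q') {C' m : ℕ}
    (hG : Growth (dX t) (NB t (K * R + C + (M + M')) P' ∩ NB t (K * R + C + (M + M')) Q') C' m) :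
    Growth (dX s) (NB s R P ∩ NB s R Q) (15 ^ C * (C' * (K + C + 1) ^ m)) m := by
  classical
  refine growth_of_map F ?_ ?_ ?_ hG
  · intro t' _ ht2
    rcases t'.eq_empty_or_nonempty with rfl | ⟨a, ha⟩
    · simp
    · apply ballX s hs C a
      intro y hy
      have h1 := q.loF a y
      rw [ht2 a ha y hy, dX_self] at h1
      omega
  · rintro x ⟨⟨p, hp, hxp⟩, ⟨r, hr, hxr⟩⟩
    obtain ⟨y, hy, hpy⟩ := h1 p hp
    obtain ⟨z, hz, hrz⟩ := h2 r hr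
    have e1 := q.upF x p
    have e2 := q.upF x r
    have e3 : K * dX s x p ≤ K * R := Nat.mul_le_mul_left _ hxp
    have e4 : K * dX s x r ≤ K * R := Nat.mul_le_mul_left _ hxr
    have e5 := dX_tri t (F x) (F p) y
    have e6 := dX_tri t (F x) (F r) z
    exact ⟨⟨y, hy, by omega⟩, ⟨z, hz, by omega⟩⟩
  · intro x
    refine ⟨F x, fun a _ r hr => ?_⟩
    have h1 := q.upF x a
    have h2 : K * dX s x a ≤ K * r := Nat.mul_le_mul_left K hr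
    nlinarith [Nat.zero_le (C * r)]

theorem big_trc (hs : ∀ n, s n ≤ 1) (q : QQ s t F G K C) {P Q : Set (KK s × ℤ)}
    {P' Q' : Set (KK t × ℤ)}
    (h1 : mpc F P P') (h2 : mpc F Q Q') (hb : Big P Q) : Big P' Q' := by
  obtain ⟨M, h1⟩ := h1
  obtain ⟨M', h2⟩ := h2
  obtain ⟨R, hR⟩ := hb
  exact ⟨_, fun C' hC' => hR _ (tr_growthc hs q h1 h2 hC')⟩

theorem bdd_trc (hs : ∀ n, s n ≤ 1) (ht : ∀ n, t n ≤ 1) (q : QQ s t F G K C)
    {k g : KK s} {k' g' : KK t} {n n' m m' : ℤ}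
    (h1 : mpc F (OB s k n) (OB t k' n')) (h2 : mpc F (OB s g m) (OB t g' m'))
    (hb : Bdd (OB s k n) (OB s g m)) : Bdd (OB t k' n') (OB t g' m') := by
  obtain ⟨M, h1⟩ := mpc_inv hs ht q h1
  obtain ⟨M', h2⟩ := mpc_inv hs ht q h2
  intro R
  obtain ⟨C', hC'⟩ := hb (K * R + C + (M + M'))
  exact ⟨_, tr_growthc ht q.symm h1 h2 hC'⟩

theorem TB_trc (hs : ∀ n, s n ≤ 1) (ht : ∀ n, t n ≤ 1) (q : QQ s t F G K C)
    {k : KK s} {k' : KK t} {n n' : ℤ}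
    (h1 : mpc F (OB s k n) (OB t k' n')) (htb : TB (OB s k n)) : TB (OB t k' n') := by
  obtain ⟨_, _, ⟨k1, n1, rfl⟩, ⟨k2, n2, rfl⟩, hb1, hb2, hbd⟩ := htb
  obtain ⟨k1', n1', e1⟩ := mpc_exists hs ht q k1 n1
  obtain ⟨k2', n2', e2⟩ := mpc_exists hs ht q k2 n2
  exact ⟨OB t k1' n1', OB t k2' n2', ⟨_, _, rfl⟩, ⟨_, _, rfl⟩, big_trc hs q h1 e1 hb1,
    big_trc hs q h1 e2 hb2, bdd_trc hs ht q e1 e2 hbd⟩

theorem type_onec (hs : ∀ n, s n ≤ 1) (ht : ∀ n, t n ≤ 1) (q : QQ s t F G K C)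
    {k : KK s} {k' : KK t} {n n' : ℤ}
    (h1 : mpc F (OB s k n) (OB t k' n')) (hn : s n = 1) : t n' = 1 := by
  by_contra hc
  have h0 := ht n'
  exact not_TB_zero ht k' n' (by omega) (TB_trc hs ht q h1 (TB_one hs k n hn))

theorem type_eqc (hs : ∀ n, s n ≤ 1) (ht : ∀ n, t n ≤ 1) (q : QQ s t F G K C)
    {k : KK s} {k' : KK t} {n n' : ℤ}
    (h1 : mpc F (OB s k n) (OB t k' n')) : t n' = s n := by
  have h0 := ht n'
  have h0' := hs n
  by_cases hn : s n = 1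
  · rw [type_onec hs ht q h1 hn, hn]
  · by_cases hn' : t n' = 1
    · exact absurd (type_onec ht hs q.symm (mpc_inv hs ht q h1) hn') hn
    · omega

theorem slab_prec (hs : ∀ n, s n ≤ 1) (ht : ∀ n, t n ≤ 1) (q : QQ s t F G K C) (k : KK s) :
    ∃ κ : KK t, ∃ π : ℤ → ℤ, ∀ n, mpc F (OB s k n) (OB t κ (π n)) := by
  choose g π hg using fun n => mpc_exists hs ht q k n
  obtain ⟨κ, h0, h1⟩ := big_share ht (big_trc hs q (hg 0) (hg 1) (big_same k 0 1))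
  have hne : π 0 ≠ π 1 := by
    intro he
    have h2 : OB t (g 0) (π 0) = OB t (g 1) (π 1) := by
      rw [← h0, ← h1, he]
    have h3 := hg 0
    rw [h2] at h3
    have h4 := OB_level (mpc_inj hs ht q h3 (hg 1))
    omega
  refine ⟨κ, π, fun n => ?_⟩
  have h2 : OB t (g n) (π n) = OB t κ (π n) := by
    apply big_slab ht hne
    · rw [h0]; exact big_trc hs q (hg n) (hg 0) (big_same k n 0)
    · rw [h1]; exact big_trc hs q (hg n) (hg 1) (big_same k n 1)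
  rw [← h2]
  exact hg n

theorem slabc (hs : ∀ n, s n ≤ 1) (ht : ∀ n, t n ≤ 1) (q : QQ s t F G K C) (k : KK s) :
    ∃ (κ : KK t) (σ : Equiv.Perm ℤ), ∀ n, mpc F (OB s k n) (OB t κ (σ n)) := by
  obtain ⟨κ, π, hπ⟩ := slab_prec hs ht q k
  obtain ⟨κ', π', hπ'⟩ := slab_prec ht hs q.symm κ
  have h1 : ∀ n, OB s κ' (π' (π n)) = OB s k n := fun n =>
    id_uniq hs (mpc_back q (hπ n) (hπ' (π n)))
  have h2 : ∀ n, π' (π n) = n := fun n => OB_level (h1 n)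
  have h3 : ∀ m, π (π' m) = m := by
    intro m
    have h4 := h1 (π' m)
    rw [h2] at h4
    have h5 := hπ' m
    rw [h4] at h5
    exact OB_level (id_uniq ht (mpc_back q.symm h5 (hπ (π' m))))
  exact ⟨κ, ⟨π, π', h2, h3⟩, hπ⟩

theorem NB_levelc {M : ℕ} {k : KK t} {n : ℤ} {x : KK t × ℤ} (h : x ∈ NB t M (OB t k n)) :
    (x.2 - n).natAbs ≤ M := by
  obtain ⟨y, ⟨o, rfl⟩, hy⟩ := h
  exact (level_lip t x _).trans hy

theorem self_mem_OBc (k : KK s) (n : ℤ) : (k, n) ∈ OB s k n := ⟨1, by rw [_root_.map_one, mul_one]⟩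

/-- one direction of the estimate -/
theorem lev_one (hs : ∀ n, s n ≤ 1) (ht : ∀ n, t n ≤ 1) (q : QQ s t F G K C) :
    ∃ L : ℕ, ∀ (k : KK s) (κ : KK t) (σ : ℤ → ℤ),
      (∀ n, mpc F (OB s k n) (OB t κ (σ n))) →
      ∀ n m : ℤ, (σ n - σ m).natAbs ≤ L * (n - m).natAbs + L := by
  obtain ⟨M0, hM0⟩ := MPc_exists hs ht q
  refine ⟨K + C + 2 * M0, ?_⟩
  intro k κ σ hσ n m
  have hunif : ∀ {k : KK s} {k' : KK t} {n n' : ℤ}, mpc F (OB s k n) (OB t k' n') →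
      MPc F M0 (OB s k n) (OB t k' n') := by
    intro k k' n n' h1
    obtain ⟨k'', n'', h2⟩ := hM0 k n
    have h3 := mpc_uniq hs ht q h1 ⟨M0, h2⟩
    rwa [← h3] at h2
  have h1 := NB_levelc (hunif (hσ n) (k, n) (self_mem_OBc k n))
  have h2 := NB_levelc (hunif (hσ m) (k, m) (self_mem_OBc k m))
  have h3 := level_lip t (F (k, n)) (F (k, m))
  have h4 := q.upF (k, n) (k, m)
  have h5 : K * dX s (k, n) (k, m) ≤ K * (n - m).natAbs :=
    Nat.mul_le_mul_left _ (dX_vert s k n m)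
  have h6 : (K + C + 2 * M0) * (n - m).natAbs ≥ K * (n - m).natAbs :=
    Nat.mul_le_mul_right _ (by omega)
  omega

theorem rigQQ (hs : ∀ n, s n ≤ 1) (ht : ∀ n, t n ≤ 1) (q : QQ s t F G K C) :
    ∃ (σ : Equiv.Perm ℤ) (L : ℤ), 0 ≤ L ∧ QI1 L σ ∧ ∀ n, t (σ n) = s n := by
  obtain ⟨κ, σ, hσ⟩ := slabc hs ht q 1
  obtain ⟨L1, hL1⟩ := lev_one hs ht q
  obtain ⟨L2, hL2⟩ := lev_one ht hs q.symm
  have hinv : ∀ m, mpc G (OB t κ m) (OB s 1 (σ⁻¹ m)) := by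
    intro m
    have h1 := mpc_inv hs ht q (hσ (σ⁻¹ m))
    have h3 : σ (σ⁻¹ m) = m := Equiv.apply_symm_apply σ m
    rwa [h3] at h1
  have e1 := hL1 1 κ σ hσ
  have e2 := hL2 κ 1 (σ⁻¹ : Equiv.Perm ℤ) hinv
  refine ⟨σ, (L1 + L2 : ℕ), Int.natCast_nonneg _, ⟨?_, ?_⟩, fun n => type_eqc hs ht q (hσ n)⟩
  · intro n m
    have h1 := e1 n m
    rw [Int.abs_eq_natAbs, Int.abs_eq_natAbs]
    have h2 : (σ n - σ m).natAbs ≤ (L1 + L2) * (n - m).natAbs + (L1 + L2) := by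
      nlinarith [Nat.zero_le (L2 * (n - m).natAbs)]
    exact_mod_cast h2
  · intro n m
    have h1 := e2 (σ n) (σ m)
    have a1 : σ⁻¹ (σ n) = n := Equiv.symm_apply_apply σ n
    have a2 : σ⁻¹ (σ m) = m := Equiv.symm_apply_apply σ m
    rw [a1, a2] at h1
    rw [Int.abs_eq_natAbs, Int.abs_eq_natAbs]
    have h2 : (n - m).natAbs ≤ (L1 + L2) * (σ n - σ m).natAbs + (L1 + L2) := by
      nlinarith [Nat.zero_le (L1 * (σ n - σ m).natAbs)]
    exact_mod_cast h2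

end

end Pool.Agent.Y269.CT
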