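import Pool.Agent.Y269.CT.Defs
import Pool.Agent.Y269.CT.Rig
import Pool.Agent.Y269.CT.Conv
import Pool.Agent.Y141.CT.Count
import Pool.Agent.Y903.CT.Act

set_option autoImplicit false
set_option linter.unusedVariables false

/-! The graphs of the family, one for each irrational number between `0` and `1`. -/

namespace Pool.Agent.Y269.CT

open Pool.Agent.H536R3

universe u v w

theorem coarse_XX {α : ℝ} (h0 : 0 < α) (h1 : α < 1) :
    CoarselyTransitive (XX (st α)) := by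
  classical
  obtain ⟨L, N, hLN⟩ := coarse_trans h0 h1
  refine ⟨L + 1, 2 * N, by
    have : (0 : ℝ) ≤ L := Nat.cast_nonneg L
    linarith, by positivity, ?_⟩
  intro x y
  obtain ⟨f, f1, f2, f3, f4⟩ := hLN x y
  let g : KK (st α) × ℤ → KK (st α) × ℤ := fun z => if z = x then y else f z
  have hg : ∀ z, dX (st α) (g z) (f z) ≤ N := by
    intro z
    by_cases hz : z = x
    · simp only [g, if_pos hz]
      rw [hz, dX_comm]; exact f4
    · simp only [g, if_neg hz]
      rw [dX_self]; exact Nat.zero_le _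
  refine ⟨g, ⟨?_, ?_⟩, by simp only [g, if_pos]⟩
  · intro a b
    have e1 := hg a
    have e2 := hg b
    have e3 := f1 a b
    have e4 := f2 a b
    have e5 : dX (st α) (g a) (g b) ≤ L * dX (st α) a b + 2 * N := by
      have t1 := dX_tri (st α) (g a) (f a) (g b)
      have t2 := dX_tri (st α) (f a) (f b) (g b)
      rw [dX_comm (st α) (f b) (g b)] at t2
      omega
    have e6 : dX (st α) (f a) (f b) ≤ dX (st α) (g a) (g b) + 2 * N := by
      have t1 := dX_tri (st α) (f a) (g a) (f b)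
      have t2 := dX_tri (st α) (g a) (g b) (f b)
      rw [dX_comm (st α) (f a) (g a)] at t1
      omega
    have e7 : dX (st α) a b ≤ L * (dX (st α) (g a) (g b) + 2 * N) :=
      e4.trans (Nat.mul_le_mul_left _ e6)
    have c1 : (0 : ℝ) ≤ L := Nat.cast_nonneg L
    have c2 : (0 : ℝ) ≤ (dX (st α) a b : ℝ) := Nat.cast_nonneg _
    have c3 : (0 : ℝ) ≤ (dX (st α) (g a) (g b) : ℝ) := Nat.cast_nonneg _
    have c4 : (0 : ℝ) ≤ N := Nat.cast_nonneg N
    have e5' : (dX (st α) (g a) (g b) : ℝ) ≤ L * (dX (st α) a b : ℝ) + 2 * N := by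
      exact_mod_cast e5
    have e7' : (dX (st α) a b : ℝ) ≤ L * ((dX (st α) (g a) (g b) : ℝ) + 2 * N) := by
      exact_mod_cast e7
    constructor
    · have c5 : (0 : ℝ) < (L : ℝ) + 1 := by linarith
      change ((L : ℝ) + 1)⁻¹ * (dX (st α) a b : ℝ) - 2 * N ≤ (dX (st α) (g a) (g b) : ℝ)
      rw [sub_le_iff_le_add, inv_mul_le_iff₀ c5]
      nlinarith
    · change (dX (st α) (g a) (g b) : ℝ) ≤ ((L : ℝ) + 1) * (dX (st α) a b : ℝ) + 2 * N
      nlinarith
  · intro b
    obtain ⟨a, ha⟩ := f3 b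
    refine ⟨a, ?_⟩
    have e1 := hg a
    rw [ha, dX_comm] at e1
    have e1' : (dX (st α) b (g a) : ℝ) ≤ N := by exact_mod_cast e1
    have c4 : (0 : ℝ) ≤ N := Nat.cast_nonneg N
    change (dX (st α) b (g a) : ℝ) ≤ 2 * N
    linarith

theorem deg_XX {α : ℝ} (h0 : 0 < α) (h1 : α < 1) (x : KK (st α) × ℤ) :
    ((XX (st α)).neighborSet x).Finite ∧ ((XX (st α)).neighborSet x).ncard ≤ 14 := by
  have hfin : ((XX (st α)).neighborSet x).Finite := by
    by_contra hinf
    obtain ⟨t, ht, htc⟩ := Set.Infinite.exists_subset_card_eq hinf 15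
    have := deg_bd (st α) (st_le h0 h1) x t (fun y hy => ht hy)
    omega
  refine ⟨hfin, ?_⟩
  rw [Set.ncard_eq_toFinset_card _ hfin]
  apply deg_bd (st α) (st_le h0 h1) x
  intro y hy
  rw [Set.Finite.mem_toFinset] at hy
  exact hy

theorem eq_of_qi {α β : ℝ} (h0 : 0 < α) (h1 : α < 1) (k0 : 0 < β) (k1 : β < 1)
    (h : QuasiIsometric (pd (XX (st α))) (pd (XX (st β)))) : α = β := by
  obtain ⟨K, C, hK, hC, F, hF1, hF2⟩ := h
  obtain ⟨G, K', C', q⟩ := exists_QQ (s := st α) (t := st β) hK hC F hF1 hF2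
  obtain ⟨σ, L, hL, h2, h3⟩ := rigQQ (st_le h0 h1) (st_le k0 k1) q
  exact Pool.Agent.Y141.CT.count_main (st α) (st β) α β (st_le h0 h1) (st_le k0 k1)
    (st_real h0 h1) (st_real k0 k1) σ L hL h2 h3

theorem no_quasi_action {α : ℝ} (hα : Irrational α) (h0 : 0 < α) (h1 : α < 1)
    (H : Type w) [Group H] (K C : ℝ) (hK : 1 ≤ K) (hC : 0 ≤ C)
    (f : H → KK (st α) × ℤ → KK (st α) × ℤ) : ¬ CoboundedQuasiAction (XX (st α)) H K C f := by
  rintro ⟨a1, a2, a3⟩
  obtain ⟨K', C', q⟩ := exists_QA' (s := st α) f hK hC (fun h => (a1 h).1) a2 a3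
  exact no_QA (st_le h0 h1) q (flux_main (st α) α hα h0 h1 (st_le h0 h1) (st_real h0 h1))

theorem no_space {α : ℝ} (hα : Irrational α) (h0 : 0 < α) (h1 : α < 1)
    (Y : Type v) [PseudoMetricSpace Y] (B : ℝ)
    (hcob : ∀ y z : Y, ∃ e : Y ≃ᵢ Y, dist (e y) z ≤ B) :
    ¬ QuasiIsometric (pd (XX (st α))) (dist : Y → Y → ℝ) := by
  rintro ⟨K, C, hK, hC, F, hF1, hF2⟩
  let _ : MulAction (Y ≃ᵢ Y) Y :=
    { smul := fun e y => e y
      one_smul := fun _ => rfl
      mul_smul := fun _ _ _ => rfl }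
  obtain ⟨f, K', C', q⟩ := Pool.Agent.Y903.CT.act_QA (st α) Y (Y ≃ᵢ Y)
    (fun h y z => h.dist_eq y z) B hcob F K C hK hC hF1 hF2
  exact no_QA (st_le h0 h1) q (flux_main (st α) α hα h0 h1 (st_le h0 h1) (st_real h0 h1))

theorem no_graph {α : ℝ} (hα : Irrational α) (h0 : 0 < α) (h1 : α < 1)
    (W : Type v) (Y : SimpleGraph W) (hY : Y.Connected) (B : ℕ)
    (hcob : ∀ y z : W, ∃ e : Y ≃g Y, Y.dist (e y) z ≤ B) :
    ¬ QuasiIsometric (pd (XX (st α))) (pd Y) := by
  intro hqi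
  let _ : PseudoMetricSpace W :=
    { dist := fun x y => (Y.dist x y : ℝ)
      dist_self := fun x => by
        change ((Y.dist x x : ℕ) : ℝ) = 0
        rw [SimpleGraph.dist_self]; simp
      dist_comm := fun x y => by
        change ((Y.dist x y : ℕ) : ℝ) = ((Y.dist y x : ℕ) : ℝ)
        rw [SimpleGraph.dist_comm]
      dist_triangle := fun x y z => by
        change ((Y.dist x z : ℕ) : ℝ) ≤ ((Y.dist x y : ℕ) : ℝ) + ((Y.dist y z : ℕ) : ℝ)
        exact_mod_cast hY.dist_triangle }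
  refine no_space hα h0 h1 W B (fun y z => ?_) hqi
  obtain ⟨e, he⟩ := hcob y z
  refine ⟨⟨e.toEquiv, Isometry.of_dist_eq fun a b => ?_⟩, ?_⟩
  · change ((Y.dist (e a) (e b) : ℕ) : ℝ) = ((Y.dist a b : ℕ) : ℝ)
    rw [iso_dist hY e a b]
  · change ((Y.dist (e y) z : ℕ) : ℝ) ≤ (B : ℝ)
    exact_mod_cast he

/-- the parameters: the irrational numbers between `0` and `1` -/
def Par : Type := {α : ℝ // Irrational α ∧ 0 < α ∧ α < 1}

theorem mk_Par : Cardinal.mk Par = Cardinal.continuum := by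
  apply le_antisymm
  · have h := Cardinal.mk_subtype_le (fun α : ℝ => Irrational α ∧ 0 < α ∧ α < 1)
    rw [Cardinal.mk_real] at h
    exact h
  · by_contra hlt
    rw [not_le] at hlt
    have h1 : Cardinal.mk (Set.Ioo (0 : ℝ) 1) = Cardinal.continuum :=
      Cardinal.mk_Ioo_real zero_lt_one
    have h2 : Set.Ioo (0 : ℝ) 1 ⊆
        {α : ℝ | Irrational α ∧ 0 < α ∧ α < 1} ∪ Set.range ((↑) : ℚ → ℝ) := by
      intro x hx
      by_cases hi : Irrational x
      · exact Or.inl ⟨hi, hx.1, hx.2⟩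
      · right
        unfold Irrational at hi
        exact not_not.1 hi
    have h3 := (Cardinal.mk_le_mk_of_subset h2).trans (Cardinal.mk_union_le _ _)
    rw [h1] at h3
    have h4 : Cardinal.mk (Set.range ((↑) : ℚ → ℝ)) < Cardinal.continuum :=
      ((Set.countable_range _).le_aleph0).trans_lt Cardinal.aleph0_lt_continuum
    exact absurd (h3.trans_lt (Cardinal.add_lt_of_lt Cardinal.aleph0_le_continuum hlt h4))
      (lt_irrefl _)

theorem exists_par : Nonempty (ℝ ≃ Par) := by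
  rw [← Cardinal.eq, mk_Par, Cardinal.mk_real]

end Pool.Agent.Y269.CT
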